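import Pool.Agent.TH25.AD.A1

/-!
Lamps at the integers: the abstract machine and the dimension of its solution space.
-/

set_option autoImplicit false
set_option linter.unusedSectionVars false

open scoped InnerProductSpace ENNReal
open Filter Topology

namespace Pool.Agent.TH25.AD

open Pool.Agent.W656.VA
open Pool.Agent.H80R2
open Pool.Agent.H80R2.BC (L2 GMat vdim IsTr LInv Equi act kerA Coef)
open Pool.Agent.H812R3

section comps

variable {H ι : Type} [Group H] [Fintype ι]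

/-- component -/
noncomputable def cj (i : ι) : L2 (ι × H) →L[ℂ] L2 (Unit × H) := el () i 1

theorem cj_apply (i : ι) (x : L2 (ι × H)) (g : H) : cj i x ((), g) = x (i, g) := by
  unfold cj
  rw [el_self, mul_one]

theorem ext_cj {x y : L2 (ι × H)} (h : ∀ i, cj i x = cj i y) : x = y := by
  ext ⟨i, g⟩
  rw [← cj_apply, h i, cj_apply]

theorem equi_cj (i : ι) : Equi (cj i : L2 (ι × H) →L[ℂ] L2 (Unit × H)) := by
  apply equi_of
  intro g x
  ext ⟨⟨⟩, k⟩
  rw [cj_apply, lt_apply, lt_apply, cj_apply]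

/-- the vector with given components -/
noncomputable def mk (F : ι → L2 (Unit × H)) : L2 (ι × H) := ∑ i, el i () 1 (F i)

theorem mk_apply (F : ι → L2 (Unit × H)) (i : ι) (g : H) : mk F (i, g) = F i ((), g) := by
  classical
  unfold mk
  rw [lp.coeFn_sum, Finset.sum_apply, Finset.sum_eq_single i]
  · rw [el_self, mul_one]
  · intro j _ hj
    exact el_ne _ _ (fun h => hj h.symm) _ _ _ _
  · intro h
    exact absurd (Finset.mem_univ _) h

theorem cj_mk (F : ι → L2 (Unit × H)) (i : ι) : cj i (mk F) = F i := by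
  ext ⟨⟨⟩, g⟩
  rw [cj_apply, mk_apply]

end comps

/-- the data of the machine -/
structure Mach (H : Type) [Group H] where
  f : H
  g : H
  h : H
  DI : Set ℤ → Subgroup H
  mono : ∀ {I J : Set ℤ}, I ⊆ J → DI I ≤ DI J
  comm : ∀ {I J : Set ℤ}, Disjoint I J → ∀ a ∈ DI I, ∀ b ∈ DI J, a * b = b * a
  triv : ∀ {I J : Set ℤ}, Disjoint I J → ∀ a ∈ DI I, a ∈ DI J → a = 1
  shift : ∀ n : ℤ, ∀ a ∈ DI {0}, f ^ n * a * (f ^ n)⁻¹ ∈ DI {n}
  shift' : ∀ n : ℤ, ∀ a ∈ DI Set.univ, f ^ n * a * (f ^ n)⁻¹ ∈ DI Set.univ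
  gc : ∀ a ∈ DI Set.univ, g * a = a * g
  hc : ∀ a ∈ DI Set.univ, h * a = a * h
  P : Submodule ℂ (L2 (Unit × H))
  closed : IsClosed (P : Set (L2 (Unit × H)))
  loc : Loc (DI {0}) P

theorem bessel {ι' H ι : Type} [Group H] [Fintype ι] (s : Finset ι')
    (K : ι' → Submodule ℂ (L2 (ι × H)))
    (hK : ∀ i ∈ s, IsClosed (K i : Set (L2 (ι × H))))
    (ho : ∀ i ∈ s, ∀ j ∈ s, i ≠ j → K j ≤ (K i)ᗮ) (L : Submodule ℂ (L2 (ι × H)))
    (hL : IsClosed (L : Set (L2 (ι × H)))) (hKL : ∀ i ∈ s, K i ≤ L) :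
    ∑ i ∈ s, vdim (K i) ≤ vdim L := by
  classical
  induction s using Finset.induction_on generalizing L with
  | empty =>
    rw [Finset.sum_empty]
    exact vdim_nonneg _
  | insert a s ha ih =>
    rw [Finset.sum_insert ha]
    have h1 := ih (fun i hi => hK i (Finset.mem_insert_of_mem hi))
      (fun i hi j hj => ho i (Finset.mem_insert_of_mem hi) j (Finset.mem_insert_of_mem hj))
      (L ⊓ (K a)ᗮ) (isClosed_inf hL (isClosed_orth _)) (by
        intro i hi
        refine le_inf (hKL i (Finset.mem_insert_of_mem hi)) ?_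
        refine ho a (Finset.mem_insert_self _ _) i (Finset.mem_insert_of_mem hi) ?_
        rintro rfl
        exact ha hi)
    rw [vdim_diff (hK a (Finset.mem_insert_self _ _)) hL (hKL a (Finset.mem_insert_self _ _))] at h1
    linarith

namespace Mach

variable {H : Type} [Group H] (M : Mach H)

/-- the lamp at `n` -/
noncomputable def lam (n : ℤ) : Submodule ℂ (L2 (Unit × H)) := sh (M.f ^ n) M.P

/-- the probability that a lamp is on -/
noncomputable def α : ℝ := vdim M.P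

theorem closed_lam (n : ℤ) : IsClosed (M.lam n : Set (L2 (Unit × H))) := isClosed_sh _ M.closed

theorem loc_lam (n : ℤ) : Loc (M.DI {n}) (M.lam n) := M.loc.sh _ (M.shift n)

theorem lam_zero : M.lam 0 = M.P := by
  ext x
  unfold lam
  rw [mem_sh, zpow_zero, inv_one, U_one]

theorem vdim_lam (n : ℤ) : vdim (M.lam n) = M.α := vdim_sh _ M.closed M.loc.linv

theorem mem_lam_shift {m n : ℤ} {x : L2 (Unit × H)} (hx : x ∈ M.lam n) :
    U (M.f ^ m) x ∈ M.lam (m + n) := by
  unfold lam at hx ⊢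
  rw [zpow_add, ← sh_sh]
  exact U_mem_sh _ hx

theorem mem_orth_shift {m n : ℤ} {x : L2 (Unit × H)} (hx : x ∈ (M.lam n)ᗮ) :
    U (M.f ^ m) x ∈ (M.lam (m + n))ᗮ := by
  unfold lam at hx ⊢
  rw [sh_orth] at hx ⊢
  rw [zpow_add, ← sh_sh]
  exact U_mem_sh _ hx

theorem α_nonneg : 0 ≤ M.α := vdim_nonneg _

/-! ### descending sequences of lamps -/

/-- the intersection of the lamps `m 0, …, m (j - 1)` -/
noncomputable def Bs (m : ℕ → ℤ) : ℕ → Submodule ℂ (L2 (Unit × H))
  | 0 => ⊤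
  | j + 1 => Bs m j ⊓ M.lam (m j)

theorem mem_Bs (m : ℕ → ℤ) (j : ℕ) (u : L2 (Unit × H)) :
    u ∈ M.Bs m j ↔ ∀ i < j, u ∈ M.lam (m i) := by
  induction j with
  | zero => simp [Bs]
  | succ j ih =>
    rw [Bs, Submodule.mem_inf, ih]
    constructor
    · rintro ⟨h1, h2⟩ i hi
      rcases Nat.lt_succ_iff_lt_or_eq.1 hi with h | h
      · exact h1 i h
      · rw [h]; exact h2
    · intro h
      exact ⟨fun i hi => h i (by omega), h j (by omega)⟩

theorem closed_Bs (m : ℕ → ℤ) (j : ℕ) : IsClosed (M.Bs m j : Set (L2 (Unit × H))) := by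
  induction j with
  | zero => exact isClosed_univ
  | succ j ih => exact isClosed_inf ih (M.closed_lam _)

theorem loc_Bs (m : ℕ → ℤ) (j : ℕ) : Loc (M.DI (m '' {i | i < j})) (M.Bs m j) := by
  induction j with
  | zero => exact Loc.top
  | succ j ih =>
    refine Loc.inf (ih.mono (M.mono ?_)) ((M.loc_lam _).mono (M.mono ?_))
    · apply Set.image_mono
      intro i hi
      simp only [Set.mem_ofPred_eq] at hi ⊢
      omega
    · rw [Set.singleton_subset_iff]
      exact ⟨j, by simp, rfl⟩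

theorem disj {m : ℕ → ℤ} (hm : Function.Injective m) (j : ℕ) :
    Disjoint (m '' {i | i < j}) {m j} := by
  rw [Set.disjoint_singleton_right]
  rintro ⟨i, hi, h⟩
  have := hm h
  simp only [Set.mem_ofPred_eq] at hi
  omega

theorem vdim_Bs {m : ℕ → ℤ} (hm : Function.Injective m) (j : ℕ) :
    vdim (M.Bs m j) = M.α ^ j := by
  induction j with
  | zero =>
    rw [Bs, vdim_top]
    simp
  | succ j ih =>
    rw [Bs, vdim_indep (M.closed_Bs m j) (M.closed_lam _) (M.loc_Bs m j) (M.loc_lam _)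
      (M.comm (disj hm j)) (M.triv (disj hm j)), ih, M.vdim_lam, pow_succ]

theorem descend (hα : M.α < 1) (m : ℕ → ℤ) (hm : Function.Injective m) (x : L2 (Unit × H))
    (hx : ∀ j : ℕ, ∀ u : L2 (Unit × H), (∀ i < j, u ∈ M.lam (m i)) → u ∈ (M.lam (m j))ᗮ →
      ⟪u, x⟫_ℂ = 0) : x = 0 := by
  have h1 : ∀ j, x ∈ M.Bs m j := by
    intro j
    induction j with
    | zero => exact Submodule.mem_top
    | succ j ih =>
      refine ⟨ih, ?_⟩
      have iK := hasProj (M.closed_lam (m j))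
      have h2 : (M.lam (m j)).starProjection x ∈ M.Bs m j :=
        (M.loc_lam (m j)).proj_mem (M.loc_Bs m j)
          (fun d hd d' hd' => (M.comm (disj hm j) d' hd' d hd).symm) ih
      have h3 := Submodule.sub_starProjection_mem_orthogonal (K := M.lam (m j)) x
      have h4 := hx j (x - (M.lam (m j)).starProjection x)
        ((M.mem_Bs m j _).1 ((M.Bs m j).sub_mem ih h2)) h3
      have h5 : ⟪x - (M.lam (m j)).starProjection x, (M.lam (m j)).starProjection x⟫_ℂ = 0 :=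
        Submodule.starProjection_inner_eq_zero x _ (Submodule.starProjection_apply_mem _ x)
      have h6 : ⟪x - (M.lam (m j)).starProjection x, x - (M.lam (m j)).starProjection x⟫_ℂ = 0 := by
        rw [inner_sub_right, h4, h5, sub_zero]
      have h7 := sub_eq_zero.1 (inner_self_eq_zero.1 h6)
      rw [h7]
      exact Submodule.starProjection_apply_mem _ x
  set L : Submodule ℂ (L2 (Unit × H)) := ⨅ j, M.Bs m j with hL
  have hLc : IsClosed (L : Set (L2 (Unit × H))) := by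
    rw [hL, Submodule.coe_iInf]
    exact isClosed_iInter fun j => M.closed_Bs m j
  have hLi : LInv L := by
    apply linv_of
    intro g y hy
    rw [hL, Submodule.mem_iInf] at hy ⊢
    intro j
    exact linv_lt (M.loc_Bs m j).linv g (hy j)
  have hv : vdim L ≤ 0 := by
    have h2 : ∀ j, vdim L ≤ M.α ^ j := fun j => by
      rw [← M.vdim_Bs hm j]
      exact vdim_mono (iInf_le _ j)
    exact ge_of_tendsto' (tendsto_pow_atTop_nhds_zero_of_lt_one M.α_nonneg hα) h2
  have h3 := eq_bot_of_vdim hLc hLi hv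
  have h4 : x ∈ L := (Submodule.mem_iInf _).2 h1
  rw [h3, Submodule.mem_bot] at h4
  exact h4

/-! ### blocks -/

/-- lamp `-1` off, lamps `0, …, n - 1` on -/
noncomputable def A : ℕ → Submodule ℂ (L2 (Unit × H))
  | 0 => (M.lam (-1))ᗮ
  | n + 1 => A n ⊓ M.lam n

/-- lamp `-1` off, lamps `0, …, n - 1` on, lamp `n` off -/
noncomputable def Q (n : ℕ) : Submodule ℂ (L2 (Unit × H)) := M.A n ⊓ (M.lam n)ᗮ

theorem mem_A (n : ℕ) (u : L2 (Unit × H)) :
    u ∈ M.A n ↔ u ∈ (M.lam (-1))ᗮ ∧ ∀ i : ℕ, i < n → u ∈ M.lam i := by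
  induction n with
  | zero => simp [A]
  | succ n ih =>
    rw [A, Submodule.mem_inf, ih]
    constructor
    · rintro ⟨⟨h0, h1⟩, h2⟩
      refine ⟨h0, fun i hi => ?_⟩
      rcases Nat.lt_succ_iff_lt_or_eq.1 hi with h | h
      · exact h1 i h
      · rw [h]; exact h2
    · rintro ⟨h0, h⟩
      exact ⟨⟨h0, fun i hi => h i (by omega)⟩, h n (by omega)⟩

theorem closed_A (n : ℕ) : IsClosed (M.A n : Set (L2 (Unit × H))) := by
  induction n with
  | zero => exact isClosed_orth _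
  | succ n ih => exact isClosed_inf ih (M.closed_lam _)

theorem loc_A (n : ℕ) : Loc (M.DI {i | i < n}) (M.A n) := by
  induction n with
  | zero =>
    refine (M.loc_lam (-1)).orth.mono (M.mono ?_)
    rw [Set.singleton_subset_iff]
    simp
  | succ n ih =>
    refine Loc.inf (ih.mono (M.mono ?_)) ((M.loc_lam _).mono (M.mono ?_))
    · intro i hi
      simp only [Set.mem_ofPred_eq] at hi ⊢
      push_cast
      omega
    · rw [Set.singleton_subset_iff]
      simp

theorem disjA (n : ℕ) : Disjoint {i : ℤ | i < n} {(n : ℤ)} := by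
  rw [Set.disjoint_singleton_right]
  simp

theorem vdim_A (n : ℕ) : vdim (M.A n) = (1 - M.α) * M.α ^ n := by
  induction n with
  | zero =>
    have := hasProj (M.closed_lam (-1))
    rw [A, vdim_orth, M.vdim_lam]
    simp
  | succ n ih =>
    rw [A, vdim_indep (M.closed_A n) (M.closed_lam _) (M.loc_A n) (M.loc_lam _)
      (M.comm (disjA n)) (M.triv (disjA n)), ih, M.vdim_lam, pow_succ]
    ring

theorem closed_Q (n : ℕ) : IsClosed (M.Q n : Set (L2 (Unit × H))) :=
  isClosed_inf (M.closed_A n) (isClosed_orth _)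

theorem loc_Q (n : ℕ) : Loc (M.DI Set.univ) (M.Q n) :=
  ((M.loc_A n).mono (M.mono (Set.subset_univ _))).inf
    ((M.loc_lam n).orth.mono (M.mono (Set.subset_univ _)))

theorem vdim_Q (n : ℕ) : vdim (M.Q n) = (1 - M.α) ^ 2 * M.α ^ n := by
  have := hasProj (M.closed_lam n)
  rw [Q, vdim_indep (M.closed_A n) (isClosed_orth _) (M.loc_A n) (M.loc_lam n).orth
      (M.comm (disjA n)) (M.triv (disjA n)), M.vdim_A, vdim_orth, M.vdim_lam]
  simp
  ring

theorem Q_on {n : ℕ} {u : L2 (Unit × H)} (hu : u ∈ M.Q n) {i : ℕ} (hi : i < n) :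
    u ∈ M.lam i := ((M.mem_A n u).1 hu.1).2 i hi

theorem Q_left {n : ℕ} {u : L2 (Unit × H)} (hu : u ∈ M.Q n) : u ∈ (M.lam (-1))ᗮ :=
  ((M.mem_A n u).1 hu.1).1

theorem Q_right {n : ℕ} {u : L2 (Unit × H)} (hu : u ∈ M.Q n) : u ∈ (M.lam n)ᗮ := hu.2

theorem Q_orth {n m : ℕ} (h : n ≠ m) : M.Q m ≤ (M.Q n)ᗮ := by
  intro x hx
  rw [Submodule.mem_orthogonal]
  intro u hu
  rcases lt_or_gt_of_ne h with h | h
  · exact Submodule.inner_left_of_mem_orthogonal (M.Q_on hx h) (M.Q_right hu)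
  · exact Submodule.inner_right_of_mem_orthogonal (M.Q_on hu h) (M.Q_right hx)

/-! ### commutation with `g`, `h` -/

/-- the translate of `g` -/
def gn (n : ℤ) : H := M.f ^ n * M.g * (M.f ^ n)⁻¹

theorem gn_comm (n : ℤ) (a : H) (ha : a ∈ M.DI Set.univ) : M.gn n * a = a * M.gn n := by
  have h1 := M.shift' (-n) a ha
  have h2 := M.gc _ h1
  unfold gn
  calc M.f ^ n * M.g * (M.f ^ n)⁻¹ * a
      = M.f ^ n * (M.g * (M.f ^ (-n) * a * (M.f ^ (-n))⁻¹)) * (M.f ^ n)⁻¹ := by
        rw [zpow_neg]; group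
    _ = M.f ^ n * ((M.f ^ (-n) * a * (M.f ^ (-n))⁻¹) * M.g) * (M.f ^ n)⁻¹ := by rw [h2]
    _ = a * (M.f ^ n * M.g * (M.f ^ n)⁻¹) := by rw [zpow_neg]; group

theorem Q_U {n : ℕ} {a : H} (ha : ∀ d ∈ M.DI Set.univ, a * d = d * a) {u : L2 (Unit × H)}
    (hu : u ∈ M.Q n) : U a u ∈ M.Q n := (M.loc_Q n).U_mem ha hu

theorem comm_inv {a : H} (ha : ∀ d ∈ M.DI Set.univ, a * d = d * a) :
    ∀ d ∈ M.DI Set.univ, a⁻¹ * d = d * a⁻¹ := by
  intro d hd
  have := ha d hd
  calc a⁻¹ * d = a⁻¹ * (d * a) * a⁻¹ := by group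
    _ = a⁻¹ * (a * d) * a⁻¹ := by rw [this]
    _ = d * a⁻¹ := by group

theorem lam_U {n : ℤ} {a : H} (ha : ∀ d ∈ M.DI Set.univ, a * d = d * a) {u : L2 (Unit × H)}
    (hu : u ∈ M.lam n) : U a u ∈ M.lam n :=
  (M.loc_lam n).U_mem (fun d hd => ha d (M.mono (Set.subset_univ _) hd)) hu

theorem U_gn (n : ℤ) (x : L2 (Unit × H)) :
    U (M.f ^ n) (U M.g x) = U (M.gn n) (U (M.f ^ n) x) := by
  rw [← U_mul, ← U_mul]
  unfold gn
  rw [inv_mul_cancel_right]

/-! ### block functions -/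

/-- functions which are constant along blocks -/
noncomputable def Z : Submodule ℂ (L2 (Unit × H)) :=
  (M.Pᗮ).comap ((ContinuousLinearMap.id ℂ _ - U M.f : L2 (Unit × H) →L[ℂ] L2 (Unit × H)) :
    L2 (Unit × H) →ₗ[ℂ] L2 (Unit × H))

theorem mem_Z (x : L2 (Unit × H)) : x ∈ M.Z ↔ x - U M.f x ∈ M.Pᗮ := Iff.rfl

/-- for `u` in the lamps `i` and `x` in `Z`, the products with `U (f ^ i) x` and `U (f ^ (i+1)) x`
agree -/
theorem step {x u : L2 (Unit × H)} (hx : x ∈ M.Z) {i : ℤ} (hu : u ∈ M.lam i) :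
    ⟪u, U (M.f ^ i) x⟫_ℂ = ⟪u, U (M.f ^ (i + 1)) x⟫_ℂ := by
  rw [M.mem_Z, ← M.lam_zero] at hx
  have h1 := M.mem_orth_shift (m := i) hx
  rw [add_zero] at h1
  have h2 : ⟪u, U (M.f ^ i) (x - U M.f x)⟫_ℂ = 0 :=
    Submodule.inner_right_of_mem_orthogonal hu h1
  rw [map_sub, inner_sub_right, sub_eq_zero, ← U_mul, ← zpow_add_one] at h2
  exact h2

theorem steps_up {x u : L2 (Unit × H)} (hx : x ∈ M.Z) (n : ℕ)
    (hu : ∀ i : ℕ, i < n → u ∈ M.lam i) : ⟪u, x⟫_ℂ = ⟪u, U (M.f ^ (n : ℤ)) x⟫_ℂ := by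
  induction n with
  | zero => simp [U_one]
  | succ n ih =>
    rw [ih (fun i hi => hu i (by omega)), M.step hx (hu n (by omega))]
    push_cast
    rfl

theorem steps_down {x u : L2 (Unit × H)} (hx : x ∈ M.Z) (n : ℕ)
    (hu : ∀ i : ℕ, i < n → u ∈ M.lam (-1 - i)) :
    ⟪u, x⟫_ℂ = ⟪u, U (M.f ^ (-(n : ℤ))) x⟫_ℂ := by
  induction n with
  | zero => simp [U_one]
  | succ n ih =>
    have h1 := M.step hx (hu n (by omega))
    rw [ih (fun i hi => hu i (by omega))]
    have e1 : (-1 - (n : ℤ)) = -((n + 1 : ℕ) : ℤ) := by push_cast; ring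
    have e2 : (-1 - (n : ℤ)) + 1 = -(n : ℤ) := by ring
    rw [e2, e1] at h1
    exact h1.symm

theorem Z_left (hα : M.α < 1) {x : L2 (Unit × H)} (hx : x ∈ M.Z) (h : x ∈ M.lam (-1)) :
    x = 0 := by
  refine M.descend hα (fun j => -1 - j) (fun a b hab => by simpa using hab) x ?_
  intro j u hu hu'
  rw [M.steps_down hx j hu]
  have h1 := M.mem_lam_shift (m := -(j : ℤ)) h
  rw [show -(j : ℤ) + -1 = -1 - j by ring] at h1
  exact Submodule.inner_left_of_mem_orthogonal h1 hu'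

theorem Z_right (hα : M.α < 1) {x : L2 (Unit × H)} (hx : x ∈ M.Z) (h : x ∈ M.P) :
    x = 0 := by
  refine M.descend hα (fun j => (j : ℤ)) (fun a b hab => by simpa using hab) x ?_
  intro j u hu hu'
  rw [M.steps_up hx j hu]
  rw [← M.lam_zero] at h
  have h1 := M.mem_lam_shift (m := (j : ℤ)) h
  rw [add_zero] at h1
  exact Submodule.inner_left_of_mem_orthogonal h1 hu'

/-- the solution space of the machine -/
noncomputable def Sol : Submodule ℂ (L2 (Fin 4 × H)) where
  carrier := {x | (∀ i, cj i x ∈ M.Z) ∧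
    (cj 2 x - U M.g (cj 0 x) ∈ M.P ∧ cj 3 x - U M.g (cj 1 x) ∈ M.P) ∧
    (U M.f (cj 1 x - U M.h (cj 0 x)) ∈ M.P ∧ U M.f (cj 3 x - U M.h (cj 2 x)) ∈ M.P)}
  zero_mem' := by simp
  add_mem' := by
    rintro x y ⟨h1, ⟨h2, h3⟩, h4, h5⟩ ⟨k1, ⟨k2, k3⟩, k4, k5⟩
    refine ⟨fun i => ?_, ⟨?_, ?_⟩, ?_, ?_⟩
    · rw [map_add]; exact M.Z.add_mem (h1 i) (k1 i)
    · have := M.P.add_mem h2 k2
      simp only [map_add]
      simpa only [add_sub_add_comm] using this
    · have := M.P.add_mem h3 k3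
      simp only [map_add]
      simpa only [add_sub_add_comm] using this
    · have := M.P.add_mem h4 k4
      rw [← map_add] at this
      simp only [map_add]
      simpa only [add_sub_add_comm, map_add] using this
    · have := M.P.add_mem h5 k5
      rw [← map_add] at this
      simp only [map_add]
      simpa only [add_sub_add_comm, map_add] using this
  smul_mem' := by
    rintro c x ⟨h1, ⟨h2, h3⟩, h4, h5⟩
    refine ⟨fun i => ?_, ⟨?_, ?_⟩, ?_, ?_⟩
    · rw [map_smul]; exact M.Z.smul_mem c (h1 i)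
    · have := M.P.smul_mem c h2
      simp only [map_smul]
      rwa [smul_sub] at this
    · have := M.P.smul_mem c h3
      simp only [map_smul]
      rwa [smul_sub] at this
    · have := M.P.smul_mem c h4
      rw [← map_smul, smul_sub] at this
      simp only [map_smul]
      exact this
    · have := M.P.smul_mem c h5
      rw [← map_smul, smul_sub] at this
      simp only [map_smul]
      exact this

end Mach

end Pool.Agent.TH25.AD
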