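import Pool.Agent.TH25.AD.A3

/-!
Subspaces of `ℓ²(ι × H)` defined by matrices over the group ring, and their dimensions.
-/

set_option autoImplicit false
set_option linter.unusedSectionVars false

open scoped InnerProductSpace ENNReal ComplexConjugate
open Filter Topology

namespace Pool.Agent.TH25.AD

open Pool.Agent.W656.VA
open Pool.Agent.H80R2
open Pool.Agent.H80R2.BC (L2 GMat vdim IsTr LInv Equi act kerA Coef)
open Pool.Agent.H812R3

variable {ι κ ν ι' κ' ν' H : Type} [Group H] [Fintype ι] [Fintype κ] [Fintype ν] [Fintype ι']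
  [Fintype κ'] [Fintype ν']

/-- the closure of the range of an operator -/
noncomputable def clo (S : L2 (ι × H) →L[ℂ] L2 (κ × H)) : Submodule ℂ (L2 (κ × H)) :=
  (LinearMap.range (S : L2 (ι × H) →ₗ[ℂ] L2 (κ × H))).topologicalClosure

theorem closed_clo (S : L2 (ι × H) →L[ℂ] L2 (κ × H)) :
    IsClosed (clo S : Set (L2 (κ × H))) := Submodule.isClosed_topologicalClosure _

theorem mem_clo (S : L2 (ι × H) →L[ℂ] L2 (κ × H)) (x : L2 (ι × H)) : S x ∈ clo S :=
  Submodule.le_topologicalClosure _ ⟨x, rfl⟩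

theorem clo_le {S : L2 (ι × H) →L[ℂ] L2 (κ × H)} {K : Submodule ℂ (L2 (κ × H))}
    (hK : IsClosed (K : Set (L2 (κ × H)))) (h : ∀ x, S x ∈ K) : clo S ≤ K := by
  apply Submodule.topologicalClosure_minimal _ _ hK
  rintro _ ⟨x, rfl⟩
  exact h x

theorem linv_clo {S : L2 (ι × H) →L[ℂ] L2 (κ × H)} (hS : Equi S) : LInv (clo S) := by
  apply linv_closure
  apply linv_of
  rintro g _ ⟨x, rfl⟩
  exact ⟨Pool.Agent.W656.VA.lt ι g x, equi_lt hS g x⟩

theorem rank_op (S : L2 (ι × H) →L[ℂ] L2 (κ × H)) (hS : Equi S) :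
    (Fintype.card ι : ℝ) = vdim (kr S) + vdim (clo S) := by
  have h := vdim_rank (K := (⊤ : Submodule ℂ (L2 (ι × H)))) isClosed_univ
    (fun _ _ _ _ _ => trivial) S hS
  rw [vdim_top, top_inf_eq, Submodule.map_top] at h
  exact h

/-- continuous maps and closures of ranges -/
theorem map_clo {S : L2 (ι × H) →L[ℂ] L2 (κ × H)} {K : Submodule ℂ (L2 (κ' × H))}
    (hK : IsClosed (K : Set (L2 (κ' × H)))) (F : L2 (κ × H) →L[ℂ] L2 (κ' × H))
    (h : ∀ x, F (S x) ∈ K) {y : L2 (κ × H)} (hy : y ∈ clo S) : F y ∈ K := by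
  have h1 : clo S ≤ K.comap (F : L2 (κ × H) →ₗ[ℂ] L2 (κ' × H)) :=
    clo_le (hK.preimage F.continuous) h
  exact h1 hy

/-! ### block matrices -/

theorem pl1_apply (x : L2 ((ι ⊕ ι') × H)) (i : ι) (g : H) :
    pl1 ι ι' H x (i, g) = x (Sum.inl i, g) := rfl

theorem pl2_apply (x : L2 ((ι ⊕ ι') × H)) (i : ι') (g : H) :
    pl2 ι ι' H x (i, g) = x (Sum.inr i, g) := rfl

theorem ext_pl {x y : L2 ((ι ⊕ ι') × H)} (h1 : pl1 ι ι' H x = pl1 ι ι' H y)
    (h2 : pl2 ι ι' H x = pl2 ι ι' H y) : x = y := by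
  ext ⟨i | i, g⟩
  · rw [← pl1_apply, h1, pl1_apply]
  · rw [← pl2_apply, h2, pl2_apply]

theorem equi_pl1 : Equi (pl1 ι ι' H) := equi_of fun _ _ => rfl

theorem equi_pl2 : Equi (pl2 ι ι' H) := equi_of fun _ _ => rfl

theorem in1_inj {ι ι' H : Type} : Function.Injective (fun p : ι × H => ((Sum.inl p.1 : ι ⊕ ι'), p.2)) := by
  rintro ⟨a, b⟩ ⟨c, d⟩ h
  simpa using h

theorem in2_inj {ι ι' H : Type} : Function.Injective (fun p : ι' × H => ((Sum.inr p.1 : ι ⊕ ι'), p.2)) := by
  rintro ⟨a, b⟩ ⟨c, d⟩ h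
  simpa using h

/-- first inclusion -/
noncomputable def in1 (ι ι' H : Type) : L2 (ι × H) →L[ℂ] L2 ((ι ⊕ ι') × H) :=
  KP.push (fun p : ι × H => ((Sum.inl p.1 : ι ⊕ ι'), p.2)) in1_inj

/-- second inclusion -/
noncomputable def in2 (ι ι' H : Type) : L2 (ι' × H) →L[ℂ] L2 ((ι ⊕ ι') × H) :=
  KP.push (fun p : ι' × H => ((Sum.inr p.1 : ι ⊕ ι'), p.2)) in2_inj

theorem pl1_in1 (x : L2 (ι × H)) : pl1 ι ι' H (in1 ι ι' H x) = x := by
  ext p
  exact pushL_apply _ in1_inj x p

theorem pl2_in1 (x : L2 (ι × H)) : pl2 ι ι' H (in1 ι ι' H x) = 0 := by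
  ext p
  exact pushL_apply_ne _ in1_inj x _ (by rintro ⟨a, b⟩ h; simp at h)

theorem pl2_in2 (x : L2 (ι' × H)) : pl2 ι ι' H (in2 ι ι' H x) = x := by
  ext p
  exact pushL_apply _ in2_inj x p

theorem pl1_in2 (x : L2 (ι' × H)) : pl1 ι ι' H (in2 ι ι' H x) = 0 := by
  ext p
  exact pushL_apply_ne _ in2_inj x _ (by rintro ⟨a, b⟩ h; simp at h)

theorem pl1_stack (B : GMat κ ι H) (B' : GMat κ' ι H) (x : L2 (ι × H)) :
    pl1 κ κ' H (op (BC.stack B B') x) = op B x := by
  ext ⟨k, g⟩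
  rw [pl1_apply, op_apply, op_apply]
  rfl

theorem pl2_stack (B : GMat κ ι H) (B' : GMat κ' ι H) (x : L2 (ι × H)) :
    pl2 κ κ' H (op (BC.stack B B') x) = op B' x := by
  ext ⟨k, g⟩
  rw [pl2_apply, op_apply, op_apply]
  rfl

theorem pl1_bd (C : GMat κ ν H) (C' : GMat κ' ν' H) (x : L2 ((ν ⊕ ν') × H)) :
    pl1 κ κ' H (op (bd C C') x) = op C (pl1 ν ν' H x) := by
  ext ⟨k, g⟩
  rw [pl1_apply, op_apply, op_apply]
  unfold act bd
  rw [Fintype.sum_sum_type]
  simp only [Sum.elim_inl, Sum.elim_inr, Finsupp.sum_zero_index, Finset.sum_const_zero, add_zero]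
  rfl

theorem pl2_bd (C : GMat κ ν H) (C' : GMat κ' ν' H) (x : L2 ((ν ⊕ ν') × H)) :
    pl2 κ κ' H (op (bd C C') x) = op C' (pl2 ν ν' H x) := by
  ext ⟨k, g⟩
  rw [pl2_apply, op_apply, op_apply]
  unfold act bd
  rw [Fintype.sum_sum_type]
  simp only [Sum.elim_inl, Sum.elim_inr, Finsupp.sum_zero_index, Finset.sum_const_zero, zero_add]
  rfl

theorem mem_clo_bd (C : GMat κ ν H) (C' : GMat κ' ν' H) (y : L2 ((κ ⊕ κ') × H)) :
    y ∈ clo (op (bd C C')) ↔ pl1 κ κ' H y ∈ clo (op C) ∧ pl2 κ κ' H y ∈ clo (op C') := by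
  constructor
  · intro hy
    refine ⟨map_clo (closed_clo _) (pl1 κ κ' H) (fun x => ?_) hy,
      map_clo (closed_clo _) (pl2 κ κ' H) (fun x => ?_) hy⟩
    · rw [pl1_bd]; exact mem_clo _ _
    · rw [pl2_bd]; exact mem_clo _ _
  · rintro ⟨h1, h2⟩
    have e : y = in1 κ κ' H (pl1 κ κ' H y) + in2 κ κ' H (pl2 κ κ' H y) := by
      apply ext_pl
      · rw [map_add, pl1_in1, pl1_in2, add_zero]
      · rw [map_add, pl2_in1, pl2_in2, zero_add]
    rw [e]
    apply Submodule.add_mem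
    · refine map_clo (closed_clo _) (in1 κ κ' H) (fun x => ?_) h1
      have e1 : in1 κ κ' H (op C x) = op (bd C C') (in1 ν ν' H x) := by
        apply ext_pl
        · rw [pl1_bd, pl1_in1, pl1_in1]
        · rw [pl2_bd, pl2_in1, pl2_in1, map_zero]
      rw [e1]
      exact mem_clo _ _
    · refine map_clo (closed_clo _) (in2 κ κ' H) (fun x => ?_) h2
      have e1 : in2 κ κ' H (op C' x) = op (bd C C') (in2 ν ν' H x) := by
        apply ext_pl
        · rw [pl1_bd, pl1_in2, pl1_in2, map_zero]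
        · rw [pl2_bd, pl2_in2, pl2_in2]
      rw [e1]
      exact mem_clo _ _

/-! ### the dimension formula -/

/-- the matrix `[B | -C]` -/
noncomputable def sd (B : GMat κ ι H) (C : GMat κ ν H) : GMat κ (ι ⊕ ν) H :=
  fun k => Sum.elim (B k) (fun j => - C k j)

theorem op_sd (B : GMat κ ι H) (C : GMat κ ν H) (x : L2 ((ι ⊕ ν) × H)) :
    op (sd B C) x = op B (pl1 ι ν H x) - op C (pl2 ι ν H x) := by
  ext ⟨k, g⟩
  rw [lp.coeFn_sub, Pi.sub_apply, op_apply, op_apply, op_apply]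
  unfold act sd
  rw [Fintype.sum_sum_type]
  simp only [Sum.elim_inl, Sum.elim_inr]
  rw [sub_eq_add_neg, ← Finset.sum_neg_distrib]
  congr 1
  refine Finset.sum_congr rfl fun j _ => ?_
  rw [Finsupp.sum_neg_index (by simp)]
  simp only [neg_mul]
  rw [Finsupp.sum, Finset.sum_neg_distrib]
  rfl

/-- the subspace defined by `B x ∈ cl (range C)` -/
noncomputable def pre (B : GMat κ ι H) (C : GMat κ ν H) : Submodule ℂ (L2 (ι × H)) :=
  (clo (op C)).comap (op B : L2 (ι × H) →ₗ[ℂ] L2 (κ × H))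

theorem mem_pre (B : GMat κ ι H) (C : GMat κ ν H) (x : L2 (ι × H)) :
    x ∈ pre B C ↔ op B x ∈ clo (op C) := Iff.rfl

theorem closed_pre (B : GMat κ ι H) (C : GMat κ ν H) :
    IsClosed (pre B C : Set (L2 (ι × H))) := (closed_clo _).preimage (op B).continuous

theorem linv_pre (B : GMat κ ι H) (C : GMat κ ν H) : LInv (pre B C) := by
  apply linv_of
  intro g x hx
  rw [mem_pre] at hx ⊢
  rw [equi_lt (equi_op B)]
  exact linv_lt (linv_clo (equi_op C)) g hx

theorem vdim_sd (B : GMat κ ι H) (C : GMat κ ν H) :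
    vdim (kerA (sd B C)) = vdim (pre B C) + vdim (kerA C) := by
  set W := clo (op C) with hW
  set Y := clo (op (sd B C)) with hY
  have hWc : IsClosed (W : Set (L2 (κ × H))) := closed_clo _
  have hYc : IsClosed (Y : Set (L2 (κ × H))) := closed_clo _
  have iW := hasProj hWc
  have iW' := hasProj (isClosed_orth W)
  have hWi : LInv W := linv_clo (equi_op C)
  have h1 := rank_op (op (sd B C)) (equi_op _)
  have h2 := rank_op (op C) (equi_op _)
  set S2 : L2 (ι × H) →L[ℂ] L2 (κ × H) := (Wᗮ.starProjection).comp (op B) with hS2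
  have hS2e : Equi S2 := equi_comp (equi_proj (linv_orth hWi)) (equi_op B)
  have h3 := rank_op S2 hS2e
  have hk : kr S2 = pre B C := by
    ext x
    rw [mem_kr, mem_pre, hS2, ContinuousLinearMap.comp_apply,
      Submodule.starProjection_apply_eq_zero_iff, Submodule.orthogonal_orthogonal]
  have hWY : W ≤ Y := by
    refine clo_le hYc fun x => ?_
    have : op C x = op (sd B C) (in2 ι ν H (-x)) := by
      rw [op_sd, pl1_in2, pl2_in2, map_zero, map_neg, zero_sub, neg_neg]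
    rw [this]
    exact mem_clo _ _
  have hBY : ∀ x, op B x ∈ Y := by
    intro x
    have : op B x = op (sd B C) (in1 ι ν H x) := by
      rw [op_sd, pl1_in1, pl2_in1, map_zero, sub_zero]
    rw [this]
    exact mem_clo _ _
  have hπ : ∀ y, Wᗮ.starProjection y = y - W.starProjection y := by
    intro y
    rw [← Submodule.starProjection_orthogonal_val]
  have h4 : clo S2 = Y ⊓ Wᗮ := by
    apply le_antisymm
    · refine clo_le (isClosed_inf hYc (isClosed_orth _)) fun x => ⟨?_, ?_⟩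
      · rw [hS2, ContinuousLinearMap.comp_apply, hπ]
        exact Y.sub_mem (hBY x) (hWY (Submodule.starProjection_apply_mem _ _))
      · exact Submodule.starProjection_apply_mem _ _
    · rintro y ⟨hy1, hy2⟩
      have h5 : Wᗮ.starProjection y ∈ clo S2 := by
        refine map_clo (closed_clo _) Wᗮ.starProjection (fun x => ?_) hy1
        rw [op_sd, map_sub]
        have e : Wᗮ.starProjection (op C (pl2 ι ν H x)) = 0 := by
          rw [Submodule.starProjection_apply_eq_zero_iff, Submodule.orthogonal_orthogonal]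
          exact mem_clo _ _
        rw [e, sub_zero]
        exact mem_clo S2 _
      rwa [Submodule.starProjection_eq_self_iff.2 hy2] at h5
  rw [hk, h4, vdim_diff hWc hYc hWY] at h3
  rw [kerA_eq, kerA_eq]
  rw [Fintype.card_sum] at h1
  push_cast at h1
  linarith

/-- `E` is defined over `R`, with defect `d` -/
def Dfn (R : Subring ℂ) (E : Submodule ℂ (L2 (ι × H))) (d : ℝ) : Prop :=
  ∃ (κ ν : Type) (_ : Fintype κ) (_ : Fintype ν) (B : GMat κ ι H) (C : GMat κ ν H),
    Coef R B ∧ Coef R C ∧ vdim (kerA C) = d ∧ ∀ x, x ∈ E ↔ op B x ∈ clo (op C)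

theorem coef_sd {R : Subring ℂ} {B : GMat κ ι H} {C : GMat κ ν H} (hB : Coef R B)
    (hC : Coef R C) : Coef R (sd B C) := by
  rintro k (i | j) h
  · exact hB k i h
  · show (-(C k j)) h ∈ R
    rw [Finsupp.neg_apply]
    exact R.neg_mem (hC k j h)

theorem Dfn.val {R : Subring ℂ} {E : Submodule ℂ (L2 (ι × H))} {d : ℝ} (h : Dfn R E d) :
    Val R H (vdim E + d) := by
  obtain ⟨κ, ν, _, _, B, C, hB, hC, rfl, hE⟩ := h
  have e : E = pre B C := by
    ext x
    rw [hE, mem_pre]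
  rw [e, ← vdim_sd]
  exact val_of _ (coef_sd hB hC)

theorem Dfn.inf {R : Subring ℂ} {E E' : Submodule ℂ (L2 (ι × H))} {d d' : ℝ} (h : Dfn R E d)
    (h' : Dfn R E' d') : Dfn R (E ⊓ E') (d + d') := by
  obtain ⟨κ, ν, _, _, B, C, hB, hC, rfl, hE⟩ := h
  obtain ⟨κ', ν', _, _, B', C', hB', hC', rfl, hE'⟩ := h'
  refine ⟨κ ⊕ κ', ν ⊕ ν', inferInstance, inferInstance, BC.stack B B', bd C C',
    coef_stack hB hB', coef_bd hC hC', vdim_bd C C', ?_⟩
  intro x
  rw [Submodule.mem_inf, hE, hE', mem_clo_bd, pl1_stack, pl2_stack]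

/-! ### products -/

/-- convolution -/
noncomputable def conv (a b : H →₀ ℂ) : H →₀ ℂ :=
  a.sum fun h c => c • b.mapDomain (fun k => h * k)

theorem conv_sum (a b : H →₀ ℂ) (φ : H → ℂ) :
    (conv a b).sum (fun h c => c * φ h)
      = a.sum fun h c => c * b.sum (fun k e => e * φ (h * k)) := by
  have hL : ∀ (ψ : H → ℂ) (z : H →₀ ℂ), z.sum (fun h c => c * ψ h)
      = Finsupp.linearCombination ℂ ψ z := by
    intro ψ z
    rw [Finsupp.linearCombination_apply]
    rfl
  rw [hL, conv, map_finsuppSum]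
  refine Finsupp.sum_congr fun h _ => ?_
  rw [map_smul, Finsupp.linearCombination_mapDomain, hL, smul_eq_mul]
  rfl

/-- product of matrices -/
noncomputable def mulM (B : GMat κ ι' H) (X : GMat ι' ι H) : GMat κ ι H :=
  fun k i => ∑ j, conv (B k j) (X j i)

theorem op_mulM (B : GMat κ ι' H) (X : GMat ι' ι H) (x : L2 (ι × H)) :
    op (mulM B X) x = op B (op X x) := by
  ext ⟨k, g⟩
  rw [op_apply, op_apply]
  unfold act mulM
  have hL : ∀ (ψ : H → ℂ) (z : H →₀ ℂ), z.sum (fun h c => c * ψ h)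
      = Finsupp.linearCombination ℂ ψ z := by
    intro ψ z
    rw [Finsupp.linearCombination_apply]
    rfl
  have e1 : ∀ i, (∑ j, conv (B k j) (X j i)).sum (fun h c => c * x (i, g * h))
      = ∑ j, (B k j).sum fun h c => c * (X j i).sum (fun l e => e * x (i, g * h * l)) := by
    intro i
    rw [hL (fun h => x (i, g * h)), map_sum]
    refine Finset.sum_congr rfl fun j _ => ?_
    rw [← hL, conv_sum]
    simp only [mul_assoc]
  rw [Finset.sum_congr rfl fun i _ => e1 i, Finset.sum_comm]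
  refine Finset.sum_congr rfl fun j _ => ?_
  simp only [Finsupp.sum]
  rw [Finset.sum_comm]
  refine Finset.sum_congr rfl fun h _ => ?_
  rw [← Finset.mul_sum]
  congr 1
  rw [op_apply]
  rfl

theorem coef_mulM {R : Subring ℂ} {B : GMat κ ι' H} {X : GMat ι' ι H} (hB : Coef R B)
    (hX : Coef R X) : Coef R (mulM B X) := by
  intro k i h
  unfold mulM conv
  rw [Finsupp.finsetSum_apply]
  apply Subring.sum_mem
  intro j _
  rw [Finsupp.sum_apply, Finsupp.sum]
  apply Subring.sum_mem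
  intro l _
  rw [Finsupp.smul_apply, smul_eq_mul]
  exact R.mul_mem (hB _ _ _) (coef_mapDomain _ _ (hX j i) _)

theorem Dfn.comap {R : Subring ℂ} {E : Submodule ℂ (L2 (ι' × H))} {d : ℝ} (h : Dfn R E d)
    {X : GMat ι' ι H} (hX : Coef R X) :
    Dfn R (E.comap (op X : L2 (ι × H) →ₗ[ℂ] L2 (ι' × H))) d := by
  obtain ⟨κ, ν, _, _, B, C, hB, hC, rfl, hE⟩ := h
  refine ⟨κ, ν, inferInstance, inferInstance, mulM B X, C, coef_mulM hB hX, hC, rfl, ?_⟩
  intro x
  rw [op_mulM]
  exact hE (op X x)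

/-! ### adjoints -/

theorem adj_el (k : κ) (i : ι) (h : H) :
    ContinuousLinearMap.adjoint (el k i h : L2 (ι × H) →L[ℂ] L2 (κ × H)) = el i k h⁻¹ := by
  unfold el
  rw [ContinuousLinearMap.adjoint_comp]
  have e1 : ContinuousLinearMap.adjoint (KP.push (fun g : H => (k, g)) (inj_pair k))
      = KP.pull (fun g : H => (k, g)) (inj_pair k) := by
    unfold KP.push
    rw [ContinuousLinearMap.adjoint_adjoint]
  rw [e1]
  ext x ⟨i', g⟩
  rw [ContinuousLinearMap.comp_apply, ContinuousLinearMap.comp_apply]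
  change KP.push (fun g : H => (i, g * h)) (inj_pair_mul i h) _ (i', g) = _
  by_cases hi : i' = i
  · subst hi
    have e2 : (i', g) = (fun g : H => (i', g * h)) (g * h⁻¹) := by simp
    conv_lhs => rw [e2]
    rw [pushL_apply (fun g : H => (i', g * h)) (inj_pair_mul i' h),
      pushL_apply (fun g : H => (i', g)) (inj_pair i')]
    rfl
  · rw [pushL_apply_ne (fun g : H => (i, g * h)) (inj_pair_mul i h),
      pushL_apply_ne (fun g : H => (i, g)) (inj_pair i)]
    · intro a ha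
      simp only [Prod.mk.injEq] at ha
      exact hi ha.1.symm
    · intro a ha
      simp only [Prod.mk.injEq] at ha
      exact hi ha.1.symm

/-- the conjugate transpose -/
noncomputable def st (A : GMat κ ι H) : GMat ι κ H :=
  fun i k => (A k i).sum fun h c => Finsupp.single h⁻¹ (conj c)

theorem op_st (A : GMat κ ι H) : op (st A) = ContinuousLinearMap.adjoint (op A) := by
  unfold op st
  rw [map_sum, Finset.sum_comm]
  refine Finset.sum_congr rfl fun k _ => ?_
  rw [map_sum]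
  refine Finset.sum_congr rfl fun i _ => ?_
  have hL : ∀ z : H →₀ ℂ, (z.sum fun h c => c • (el i k h : L2 (κ × H) →L[ℂ] L2 (ι × H)))
      = Finsupp.linearCombination ℂ (fun h => (el i k h : L2 (κ × H) →L[ℂ] L2 (ι × H))) z := by
    intro z
    rw [Finsupp.linearCombination_apply]
  rw [hL, Finsupp.sum, map_sum, Finsupp.sum, map_sum]
  refine Finset.sum_congr rfl fun h _ => ?_
  rw [Finsupp.linearCombination_single, map_smulₛₗ, adj_el]

theorem coef_st {R : Subring ℂ} (hR : ∀ c ∈ R, conj c ∈ R) {A : GMat κ ι H} (hA : Coef R A) :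
    Coef R (st A) := by
  intro i k h
  unfold st
  rw [Finsupp.sum_apply, Finsupp.sum]
  apply Subring.sum_mem
  intro l _
  exact coef_single _ _ (hR _ (hA k i l)) _

end Pool.Agent.TH25.AD
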