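import Pool.Agent.TH25.AD.A4

/-!
Lamps given by matrices over the group ring; the solution space of the machine is defined over the
coefficient ring.
-/

set_option autoImplicit false
set_option linter.unusedSectionVars false

open scoped InnerProductSpace ENNReal ComplexConjugate
open Filter Topology

namespace Pool.Agent.TH25.AD

open Pool.Agent.W656.VA
open Pool.Agent.H80R2
open Pool.Agent.H80R2.BC (L2 GMat vdim IsTr LInv Equi act kerA Coef)
open Pool.Agent.H812R3

section lamps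

variable {ι κ H : Type} [Group H] [Fintype ι] [Fintype κ]

/-- the lamp subspace: the closure of the image of `ker A` under `T` -/
noncomputable def lampP (A : GMat κ ι H) (T : GMat Unit ι H) : Submodule ℂ (L2 (Unit × H)) :=
  ((kerA A).map (op T : L2 (ι × H) →ₗ[ℂ] L2 (Unit × H))).topologicalClosure

theorem closed_lampP (A : GMat κ ι H) (T : GMat Unit ι H) :
    IsClosed (lampP A T : Set (L2 (Unit × H))) := Submodule.isClosed_topologicalClosure _

theorem linv_lampP (A : GMat κ ι H) (T : GMat Unit ι H) : LInv (lampP A T) :=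
  linv_closure (linv_map (equi_op T) (linv_kerA A))

theorem vdim_lampP (A : GMat κ ι H) (T : GMat Unit ι H) (h : kerA A ⊓ kerA T = ⊥) :
    vdim (lampP A T) = vdim (kerA A) := by
  have h1 := vdim_rank (isClosed_kerA A) (linv_kerA A) (op T) (equi_op T)
  rw [← kerA_eq, h, vdim_bot, zero_add] at h1
  exact h1.symm

/-- the identity matrix of size one -/
noncomputable def idM (H : Type) [Group H] : GMat Unit Unit H := fun _ _ => Finsupp.single 1 1

theorem op_idM (x : L2 (Unit × H)) : op (idM H) x = x := by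
  ext ⟨⟨⟩, g⟩
  rw [op_apply]
  unfold act idM
  simp

theorem op_zero (x : L2 (ι × H)) : op (fun _ _ => 0 : GMat κ ι H) x = 0 := by
  ext ⟨k, g⟩
  rw [op_apply]
  unfold act
  simp

theorem dfn_lampP {R : Subring ℂ} {A : GMat κ ι H} {T : GMat Unit ι H} (hA : Coef R A)
    (hT : Coef R T) (h : kerA A ⊓ kerA T = ⊥) : Dfn R (lampP A T) 0 := by
  set B : GMat (Unit ⊕ κ) Unit H := BC.stack (idM H) (fun _ _ => 0) with hB
  set C : GMat (Unit ⊕ κ) ι H := BC.stack T A with hC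
  have hkC : kerA C = ⊥ := by
    rw [hC, kerA_stack, inf_comm, h]
  have hkC0 : vdim (kerA C) = 0 := by rw [hkC, vdim_bot]
  have h1 : lampP A T ≤ pre B C := by
    apply Submodule.topologicalClosure_minimal _ _ (closed_pre B C)
    rintro _ ⟨s, hs, rfl⟩
    rw [mem_pre]
    have e : op B (op T s) = op C s := by
      apply ext_pl
      · rw [hB, hC, pl1_stack, pl1_stack, op_idM]
      · rw [hB, hC, pl2_stack, pl2_stack, op_zero]
        have hs' : s ∈ kerA A := hs
        rw [kerA_eq, mem_kr] at hs'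
        exact hs'.symm
    show op B (op T s) ∈ clo (op C)
    rw [e]
    exact mem_clo _ _
  have h2 : vdim (kerA (sd B C)) ≤ vdim (kerA A) := by
    have key : ∀ x ∈ kerA (sd B C), pl1 Unit ι H x = op T (pl2 Unit ι H x) ∧
        op A (pl2 Unit ι H x) = 0 := by
      intro x hx
      rw [kerA_eq, mem_kr, op_sd, sub_eq_zero] at hx
      constructor
      · have := congrArg (pl1 Unit κ H) hx
        rwa [hB, hC, pl1_stack, pl1_stack, op_idM] at this
      · have := congrArg (pl2 Unit κ H) hx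
        rw [hB, hC, pl2_stack, pl2_stack, op_zero] at this
        exact this.symm
    refine vdim_inj_le (isClosed_kerA _) (linv_kerA _) (pl2 Unit ι H) equi_pl2 (isClosed_kerA A)
      ?_ ?_
    · intro x hx
      rw [kerA_eq, mem_kr]
      exact (key x hx).2
    · intro x hx h0
      apply ext_pl
      · rw [(key x hx).1, h0, map_zero, map_zero]
      · rw [h0, map_zero]
  rw [vdim_sd, hkC0, add_zero, ← vdim_lampP A T h] at h2
  have h3 := eq_of_vdim (closed_lampP A T) (linv_lampP A T) (closed_pre B C) (linv_pre B C) h1 h2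
  refine ⟨Unit ⊕ κ, ι, inferInstance, inferInstance, B, C, ?_, coef_stack hT hA, hkC0, ?_⟩
  · apply coef_stack
    · intro k i g
      exact coef_single _ _ R.one_mem _
    · intro k i g
      exact R.zero_mem
  · intro x
    rw [h3, mem_pre]

theorem dfn_lampP_orth {R : Subring ℂ} (hR : ∀ c ∈ R, conj c ∈ R) {A : GMat κ ι H}
    {T : GMat Unit ι H} (hA : Coef R A) (hT : Coef R T) :
    Dfn R (lampP A T)ᗮ (Fintype.card κ - Fintype.card ι + vdim (kerA A)) := by
  refine ⟨ι, κ, inferInstance, inferInstance, st T, st A, coef_st hR hT, coef_st hR hA, ?_, ?_⟩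
  · have h := vdim_ker_adjoint (op A) (equi_op A)
    rw [← op_st, ← kerA_eq, ← kerA_eq] at h
    linarith
  · intro y
    rw [op_st, op_st]
    have h1 : clo (ContinuousLinearMap.adjoint (op A)) = (kerA A)ᗮ := by
      rw [kerA_eq]
      exact (ContinuousLinearMap.orthogonal_ker (op A)).symm
    rw [h1, lampP, Submodule.orthogonal_closure, Submodule.mem_orthogonal,
      Submodule.mem_orthogonal]
    constructor
    · intro h s hs
      rw [ContinuousLinearMap.adjoint_inner_right]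
      exact h _ ⟨s, hs, rfl⟩
    · rintro h _ ⟨s, hs, rfl⟩
      have := h s hs
      rw [ContinuousLinearMap.adjoint_inner_right] at this
      exact this

theorem cj_op (A : GMat κ ι H) (k : κ) (s : L2 (ι × H)) :
    cj k (op A s) = ∑ i, (A k i).sum fun h c => c • U h (cj i s) := by
  ext ⟨⟨⟩, g⟩
  rw [cj_apply, op_apply, lp.coeFn_sum, Finset.sum_apply]
  unfold act
  refine Finset.sum_congr rfl fun i _ => ?_
  rw [Finsupp.sum, Finsupp.sum, lp.coeFn_sum, Finset.sum_apply]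
  refine Finset.sum_congr rfl fun h _ => ?_
  rw [lp.coeFn_smul, Pi.smul_apply, U_apply, cj_apply, smul_eq_mul]

theorem cj_op_amp (D : Subgroup H) (A : GMat κ ι H) (hA : ∀ k i, ∀ h ∈ (A k i).support, h ∈ D)
    (X : L2 (Unit × H) →L[ℂ] L2 (Unit × H)) (hX : ∀ d ∈ D, ∀ x, X (U d x) = U d (X x))
    (s : L2 (ι × H)) (k : κ) :
    cj k (op A (mk fun i => X (cj i s))) = X (cj k (op A s)) := by
  rw [cj_op, cj_op, map_sum]
  refine Finset.sum_congr rfl fun i _ => ?_
  rw [Finsupp.sum, Finsupp.sum, map_sum]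
  refine Finset.sum_congr rfl fun h hh => ?_
  rw [map_smul, hX h (hA k i h hh), cj_mk]

theorem loc_lampP (D : Subgroup H) {A : GMat κ ι H} {T : GMat Unit ι H}
    (hA : ∀ k i, ∀ h ∈ (A k i).support, h ∈ D) (hT : ∀ k i, ∀ h ∈ (T k i).support, h ∈ D) :
    Loc D (lampP A T) := by
  intro X hX x hx
  have h1 : lampP A T ≤ (lampP A T).comap (X : L2 (Unit × H) →ₗ[ℂ] L2 (Unit × H)) := by
    apply Submodule.topologicalClosure_minimal _ _ ((closed_lampP A T).preimage X.continuous)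
    rintro _ ⟨s, hs, rfl⟩
    have hs' : s ∈ kerA A := hs
    rw [kerA_eq, mem_kr] at hs'
    have e : X (op T s) = op T (mk fun i => X (cj i s)) := by
      apply ext_cj
      intro k
      rw [cj_op_amp D T hT X hX]
      have e2 : ∀ y : L2 (Unit × H), cj (k : Unit) y = y := by
        intro y
        ext ⟨⟨⟩, g⟩
        rw [cj_apply]
      rw [e2, e2]
    show X (op T s) ∈ lampP A T
    rw [e]
    apply Submodule.le_topologicalClosure
    refine ⟨_, ?_, rfl⟩
    show (mk fun i => X (cj i s)) ∈ kerA A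
    rw [kerA_eq, mem_kr]
    apply ext_cj
    intro k
    rw [cj_op_amp D A hA X hX, hs', map_zero, map_zero]
  exact h1 hx

end lamps

section sol

variable {H : Type} [Group H]

/-- the row `x ↦ U h x_i` -/
noncomputable def rw1 (i : Fin 4) (h : H) : GMat Unit (Fin 4) H :=
  fun _ k => if k = i then Finsupp.single h 1 else 0

theorem act_rw1 (i : Fin 4) (h : H) (x : Fin 4 × H → ℂ) (g : H) :
    act (rw1 i h) x () g = x (i, g * h) := by
  unfold act rw1
  rw [Finset.sum_eq_single i]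
  · rw [if_pos rfl, Finsupp.sum_single_index (by simp), one_mul]
  · intro j _ hj
    rw [if_neg hj]
    simp
  · intro h
    exact absurd (Finset.mem_univ _) h

/-- the row `x ↦ U a x_i - U b x_j` -/
noncomputable def rw2 (i j : Fin 4) (a b : H) : GMat Unit (Fin 4) H :=
  fun u k => rw1 i a u k - rw1 j b u k

theorem op_rw2 (i j : Fin 4) (a b : H) (x : L2 (Fin 4 × H)) :
    op (rw2 i j a b) x = U a (cj i x) - U b (cj j x) := by
  ext ⟨⟨⟩, g⟩
  rw [op_apply, lp.coeFn_sub, Pi.sub_apply, U_apply, U_apply, cj_apply, cj_apply,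
    ← act_rw1 i a x g, ← act_rw1 j b x g]
  unfold act rw2
  rw [← Finset.sum_sub_distrib]
  refine Finset.sum_congr rfl fun k _ => ?_
  rw [Finsupp.sum_sub_index]
  intro h b1 b2
  ring

theorem coef_rw2 {R : Subring ℂ} (i j : Fin 4) (a b : H) : Coef R (rw2 i j a b) := by
  intro u k h
  unfold rw2 rw1
  rw [Finsupp.sub_apply]
  apply R.sub_mem
  · split_ifs
    · exact coef_single _ _ R.one_mem _
    · exact R.zero_mem
  · split_ifs
    · exact coef_single _ _ R.one_mem _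
    · exact R.zero_mem

theorem Mach.dfn_Sol (M : Mach H) {R : Subring ℂ} {d : ℝ} (hP : Dfn R M.P 0)
    (hN : Dfn R M.Pᗮ d) : Dfn R M.Sol (4 * d) := by
  have hZ : ∀ i : Fin 4, Dfn R ((M.Pᗮ).comap
      (op (rw2 i i 1 M.f) : L2 (Fin 4 × H) →ₗ[ℂ] L2 (Unit × H))) d :=
    fun i => hN.comap (coef_rw2 _ _ _ _)
  have h1 : Dfn R ((M.P).comap
      (op (rw2 2 0 1 M.g) : L2 (Fin 4 × H) →ₗ[ℂ] L2 (Unit × H))) 0 := hP.comap (coef_rw2 _ _ _ _)
  have h2 : Dfn R ((M.P).comap
      (op (rw2 3 1 1 M.g) : L2 (Fin 4 × H) →ₗ[ℂ] L2 (Unit × H))) 0 := hP.comap (coef_rw2 _ _ _ _)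
  have h3 : Dfn R ((M.P).comap
      (op (rw2 1 0 M.f (M.f * M.h)) : L2 (Fin 4 × H) →ₗ[ℂ] L2 (Unit × H))) 0 :=
    hP.comap (coef_rw2 _ _ _ _)
  have h4 : Dfn R ((M.P).comap
      (op (rw2 3 2 M.f (M.f * M.h)) : L2 (Fin 4 × H) →ₗ[ℂ] L2 (Unit × H))) 0 :=
    hP.comap (coef_rw2 _ _ _ _)
  have h5 := ((((hZ 0).inf (hZ 1)).inf (hZ 2)).inf (hZ 3)).inf ((h1.inf h2).inf (h3.inf h4))
  have e1 : d + d + d + d + (0 + 0 + (0 + 0)) = 4 * d := by ring
  rw [e1] at h5
  have e2 : M.Sol = ((((M.Pᗮ).comap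
      (op (rw2 0 0 1 M.f) : L2 (Fin 4 × H) →ₗ[ℂ] L2 (Unit × H)) ⊓ (M.Pᗮ).comap
      (op (rw2 1 1 1 M.f) : L2 (Fin 4 × H) →ₗ[ℂ] L2 (Unit × H))) ⊓ (M.Pᗮ).comap
      (op (rw2 2 2 1 M.f) : L2 (Fin 4 × H) →ₗ[ℂ] L2 (Unit × H))) ⊓ (M.Pᗮ).comap
      (op (rw2 3 3 1 M.f) : L2 (Fin 4 × H) →ₗ[ℂ] L2 (Unit × H))) ⊓ (((M.P).comap
      (op (rw2 2 0 1 M.g) : L2 (Fin 4 × H) →ₗ[ℂ] L2 (Unit × H)) ⊓ (M.P).comap
      (op (rw2 3 1 1 M.g) : L2 (Fin 4 × H) →ₗ[ℂ] L2 (Unit × H))) ⊓ ((M.P).comap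
      (op (rw2 1 0 M.f (M.f * M.h)) : L2 (Fin 4 × H) →ₗ[ℂ] L2 (Unit × H)) ⊓ (M.P).comap
      (op (rw2 3 2 M.f (M.f * M.h)) : L2 (Fin 4 × H) →ₗ[ℂ] L2 (Unit × H)))) := by
    ext x
    simp only [Submodule.mem_inf, Submodule.mem_comap, ContinuousLinearMap.coe_coe, op_rw2,
      U_one, U_mul, ← map_sub]
    rw [M.mem_Sol]
    have hz : ∀ i, (cj i x ∈ M.Z ↔ cj i x - U M.f (cj i x) ∈ M.Pᗮ) := fun i => Iff.rfl
    constructor
    · rintro ⟨k1, ⟨k2, k3⟩, k4, k5⟩
      exact ⟨⟨⟨⟨k1 0, k1 1⟩, k1 2⟩, k1 3⟩, ⟨k2, k3⟩, k4, k5⟩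
    · rintro ⟨⟨⟨⟨a0, a1⟩, a2⟩, a3⟩, ⟨k2, k3⟩, k4, k5⟩
      refine ⟨?_, ⟨k2, k3⟩, k4, k5⟩
      intro i
      fin_cases i
      · exact a0
      · exact a1
      · exact a2
      · exact a3
  rw [e2]
  exact h5

end sol

end Pool.Agent.TH25.AD
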