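import Pool.Agent.TH25.AD.A5

/-!
The unrestricted wreath product with `ℤ`, and the machine over it.
-/

set_option autoImplicit false
set_option linter.unusedSectionVars false

open scoped InnerProductSpace ENNReal ComplexConjugate
open Filter Topology

namespace Pool.Agent.TH25.AD

open Pool.Agent.W656.VA
open Pool.Agent.H80R2
open Pool.Agent.H80R2.BC (L2 GMat vdim IsTr LInv Equi act kerA Coef)
open Pool.Agent.H812R3

/-- no elements of finite order except `1` -/
def TF (G : Type) [Group G] : Prop := ∀ g : G, ∀ n : ℕ, 0 < n → g ^ n = 1 → g = 1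

/-- the unrestricted wreath product of `L` with `ℤ` -/
@[ext] structure Wr (L : Type) where
  k : ℤ → L
  n : ℤ

namespace Wr

variable {L : Type} [Group L]

instance : Mul (Wr L) := ⟨fun a b => ⟨fun i => a.k i * b.k (i - a.n), a.n + b.n⟩⟩
instance : One (Wr L) := ⟨⟨fun _ => 1, 0⟩⟩
instance : Inv (Wr L) := ⟨fun a => ⟨fun i => (a.k (i + a.n))⁻¹, -a.n⟩⟩

theorem mul_k (a b : Wr L) (i : ℤ) : (a * b).k i = a.k i * b.k (i - a.n) := rfl
theorem mul_n (a b : Wr L) : (a * b).n = a.n + b.n := rfl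
theorem one_k (i : ℤ) : (1 : Wr L).k i = 1 := rfl
theorem one_n : (1 : Wr L).n = 0 := rfl
theorem inv_k (a : Wr L) (i : ℤ) : (a⁻¹).k i = (a.k (i + a.n))⁻¹ := rfl
theorem inv_n (a : Wr L) : (a⁻¹).n = -a.n := rfl

instance : Group (Wr L) := Group.ofLeftAxioms
  (by
    intro a b c
    apply Wr.ext
    · funext i
      rw [mul_k, mul_k, mul_k, mul_k, mul_n, mul_assoc, sub_sub]
    · rw [mul_n, mul_n, mul_n, mul_n, add_assoc])
  (by
    intro a
    apply Wr.ext
    · funext i
      rw [mul_k, one_k, one_n, one_mul, sub_zero]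
    · rw [mul_n, one_n, zero_add])
  (by
    intro a
    apply Wr.ext
    · funext i
      rw [mul_k, inv_k, inv_n, sub_neg_eq_add, one_k, inv_mul_cancel]
    · rw [mul_n, inv_n, one_n, neg_add_cancel])

theorem pow_n (a : Wr L) (m : ℕ) : (a ^ m).n = m * a.n := by
  induction m with
  | zero => rw [pow_zero, one_n]; simp
  | succ m ih => rw [pow_succ, mul_n, ih]; push_cast; ring

theorem pow_k (a : Wr L) (ha : a.n = 0) (m : ℕ) (i : ℤ) : (a ^ m).k i = (a.k i) ^ m := by
  induction m with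
  | zero => rw [pow_zero, pow_zero, one_k]
  | succ m ih => rw [pow_succ, mul_k, pow_n, ha, mul_zero, sub_zero, ih, pow_succ]

theorem tf (hL : TF L) : TF (Wr L) := by
  intro a m hm h
  have h1 : a.n = 0 := by
    have h2 := pow_n a m
    rw [h, one_n] at h2
    rcases mul_eq_zero.1 h2.symm with h3 | h3
    · have : m = 0 := by exact_mod_cast h3
      omega
    · exact h3
  apply Wr.ext
  · funext i
    rw [one_k]
    refine hL _ m hm ?_
    rw [← pow_k a h1, h, one_k]
  · rw [h1, one_n]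

/-- the shift -/
def t : Wr L := ⟨fun _ => 1, 1⟩

theorem t_zpow (n : ℤ) : (t : Wr L) ^ n = ⟨fun _ => 1, n⟩ := by
  induction n using Int.induction_on with
  | zero => rfl
  | succ n ih =>
    rw [zpow_add_one, ih]
    apply Wr.ext
    · funext i
      rw [mul_k]
      exact one_mul _
    · rfl
  | pred n ih =>
    rw [zpow_sub_one, ih]
    apply Wr.ext
    · funext i
      rw [mul_k, inv_k]
      show (1 : L) * (1 : L)⁻¹ = 1
      simp
    · rfl

theorem conj_k (n : ℤ) (a : Wr L) (i : ℤ) :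
    ((t : Wr L) ^ n * a * ((t : Wr L) ^ n)⁻¹).k i = a.k (i - n) := by
  rw [t_zpow, mul_k, mul_k, inv_k]
  show 1 * a.k (i - n) * (1 : L)⁻¹ = _
  simp

theorem conj_n (n : ℤ) (a : Wr L) : ((t : Wr L) ^ n * a * ((t : Wr L) ^ n)⁻¹).n = a.n := by
  rw [t_zpow, mul_n, mul_n, inv_n]
  show n + a.n + -n = a.n
  ring

end Wr

theorem tf_prod {G G' : Type} [Group G] [Group G'] (h : TF G) (h' : TF G') : TF (G × G') := by
  rintro ⟨a, b⟩ n hn hab
  have h1 : a ^ n = 1 := congrArg Prod.fst hab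
  have h2 : b ^ n = 1 := congrArg Prod.snd hab
  rw [h a n hn h1, h' b n hn h2]
  rfl

theorem tf_int : TF (Multiplicative ℤ) := by
  intro a n hn h
  have h1 : (n : ℤ) * Multiplicative.toAdd a = 0 := by
    have := congrArg Multiplicative.toAdd h
    rw [toAdd_pow, toAdd_one, nsmul_eq_mul] at this
    exact this
  rcases mul_eq_zero.1 h1 with h2 | h2
  · have : n = 0 := by exact_mod_cast h2
    omega
  · exact Multiplicative.toAdd.injective h2

/-- the base group of the machine -/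
abbrev Bg (G : Type) : Type := G × Wr (Multiplicative ℤ)

/-- the group of the machine -/
abbrev Hg (G : Type) : Type := Wr (Bg G)

theorem tf_Hg {G : Type} [Group G] (h : TF G) : TF (Hg G) := Wr.tf (tf_prod h (Wr.tf tf_int))

/-- two elements which do not commute -/
def pp : Wr (Multiplicative ℤ) := ⟨fun i => if i = 0 then Multiplicative.ofAdd 1 else 1, 0⟩

theorem pp_t : pp * Wr.t ≠ Wr.t * pp := by
  intro h
  have h1 := congrArg (fun a : Wr (Multiplicative ℤ) => a.k 0) h
  simp only [Wr.mul_k] at h1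
  unfold pp Wr.t at h1
  simp at h1

variable {G : Type} [Group G]

/-- the subgroup of the lamps in `I` -/
def DIg (G : Type) [Group G] (I : Set ℤ) : Subgroup (Hg G) where
  carrier := {a | a.n = 0 ∧ (∀ i ∉ I, a.k i = 1) ∧ ∀ i, (a.k i).2 = 1}
  one_mem' := ⟨rfl, fun _ _ => rfl, fun _ => rfl⟩
  mul_mem' := by
    rintro a b ⟨h1, h2, h3⟩ ⟨k1, k2, k3⟩
    refine ⟨?_, ?_, ?_⟩
    · rw [Wr.mul_n, h1, k1, add_zero]
    · intro i hi
      rw [Wr.mul_k, h1, sub_zero, h2 i hi, k2 i hi, one_mul]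
    · intro i
      rw [Wr.mul_k, Prod.snd_mul, h3, k3, one_mul]
  inv_mem' := by
    rintro a ⟨h1, h2, h3⟩
    refine ⟨?_, ?_, ?_⟩
    · rw [Wr.inv_n, h1, neg_zero]
    · intro i hi
      rw [Wr.inv_k, h1, add_zero, h2 i hi, inv_one]
    · intro i
      rw [Wr.inv_k, Prod.snd_inv, h3, inv_one]

theorem mem_DIg (I : Set ℤ) (a : Hg G) :
    a ∈ DIg G I ↔ a.n = 0 ∧ (∀ i ∉ I, a.k i = 1) ∧ ∀ i, (a.k i).2 = 1 := Iff.rfl

open Classical in
/-- the element `g` of the machine -/
noncomputable def gg (G : Type) [Group G] (S : Set ℕ) : Hg G :=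
  ⟨fun i => (1, if ∃ n : ℕ, n ∉ S ∧ i = -(n : ℤ) then pp else 1), 0⟩

/-- the element `h` of the machine -/
def hh (G : Type) [Group G] : Hg G := ⟨fun i => (1, if i = 0 then Wr.t else 1), 0⟩

/-- the inclusion of `G` -/
def inc (G : Type) [Group G] : G →* Hg G where
  toFun x := ⟨fun i => if i = 0 then (x, 1) else 1, 0⟩
  map_one' := by
    apply Wr.ext
    · funext i
      rw [Wr.one_k]
      show (if i = 0 then ((1 : G), (1 : Wr (Multiplicative ℤ))) else 1) = 1
      split_ifs <;> rfl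
    · rfl
  map_mul' x y := by
    apply Wr.ext
    · funext i
      rw [Wr.mul_k]
      show (if i = 0 then (x * y, (1 : Wr (Multiplicative ℤ))) else 1) =
        (if i = 0 then (x, 1) else 1) * (if i - 0 = 0 then (y, 1) else 1)
      rw [sub_zero]
      split_ifs
      · rw [Prod.mk_mul_mk, one_mul]
      · rw [one_mul]
    · rfl

theorem inc_k (x : G) (i : ℤ) : (inc G x).k i = if i = 0 then (x, 1) else 1 := rfl

theorem inc_inj : Function.Injective (inc G) := by
  intro x y h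
  have h1 := congrArg (fun a : Hg G => (a.k 0).1) h
  simpa only [inc_k, if_pos] using h1

theorem inc_mem (x : G) : inc G x ∈ DIg G {0} := by
  refine ⟨rfl, ?_, ?_⟩
  · intro i hi
    rw [inc_k, if_neg (fun h => hi (by rw [h]; exact Set.mem_singleton _))]
  · intro i
    rw [inc_k]
    split_ifs <;> rfl

/-- the machine -/
noncomputable def mach (G : Type) [Group G] (S : Set ℕ) (P : Submodule ℂ (L2 (Unit × Hg G)))
    (hP : IsClosed (P : Set (L2 (Unit × Hg G)))) (hloc : Loc (DIg G {0}) P) : Mach (Hg G) where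
  f := Wr.t
  g := gg G S
  h := hh G
  DI := DIg G
  mono := fun hIJ a ha => ⟨ha.1, fun i hi => ha.2.1 i (fun h => hi (hIJ h)), ha.2.2⟩
  comm := by
    rintro I J hIJ a ⟨a1, a2, a3⟩ b ⟨b1, b2, b3⟩
    apply Wr.ext
    · funext i
      rw [Wr.mul_k, Wr.mul_k, a1, b1, sub_zero]
      by_cases hi : i ∈ I
      · rw [b2 i (fun h => Set.disjoint_left.1 hIJ hi h), one_mul, mul_one]
      · rw [a2 i hi, one_mul, mul_one]
    · rw [Wr.mul_n, Wr.mul_n, add_comm]
  triv := by
    rintro I J hIJ a ⟨a1, a2, a3⟩ ⟨b1, b2, b3⟩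
    apply Wr.ext
    · funext i
      rw [Wr.one_k]
      by_cases hi : i ∈ I
      · exact b2 i (fun h => Set.disjoint_left.1 hIJ hi h)
      · exact a2 i hi
    · exact a1
  shift := by
    rintro n a ⟨a1, a2, a3⟩
    refine ⟨?_, ?_, ?_⟩
    · rw [Wr.conj_n, a1]
    · intro i hi
      rw [Wr.conj_k]
      apply a2
      intro h
      apply hi
      rw [Set.mem_singleton_iff] at h ⊢
      omega
    · intro i
      rw [Wr.conj_k, a3]
  shift' := by
    rintro n a ⟨a1, a2, a3⟩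
    refine ⟨?_, ?_, ?_⟩
    · rw [Wr.conj_n, a1]
    · intro i hi
      exact absurd (Set.mem_univ _) hi
    · intro i
      rw [Wr.conj_k, a3]
  gc := by
    rintro a ⟨a1, a2, a3⟩
    apply Wr.ext
    · funext i
      rw [Wr.mul_k, Wr.mul_k, a1]
      show (gg G S).k i * a.k (i - 0) = a.k i * (gg G S).k (i - 0)
      rw [sub_zero]
      apply Prod.ext
      · show 1 * (a.k i).1 = (a.k i).1 * 1
        rw [one_mul, mul_one]
      · rw [Prod.snd_mul, Prod.snd_mul, a3, one_mul, mul_one]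
    · rw [Wr.mul_n, Wr.mul_n, add_comm]
  hc := by
    rintro a ⟨a1, a2, a3⟩
    apply Wr.ext
    · funext i
      rw [Wr.mul_k, Wr.mul_k, a1]
      show (hh G).k i * a.k (i - 0) = a.k i * (hh G).k (i - 0)
      rw [sub_zero]
      apply Prod.ext
      · show 1 * (a.k i).1 = (a.k i).1 * 1
        rw [one_mul, mul_one]
      · rw [Prod.snd_mul, Prod.snd_mul, a3, one_mul, mul_one]
    · rw [Wr.mul_n, Wr.mul_n, add_comm]
  P := P
  closed := hP
  loc := hloc

theorem gn_k (S : Set ℕ) (P : Submodule ℂ (L2 (Unit × Hg G)))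
    (hP : IsClosed (P : Set (L2 (Unit × Hg G)))) (hloc : Loc (DIg G {0}) P) (n i : ℤ) :
    ((mach G S P hP hloc).gn n).k i = (gg G S).k (i - n) := Wr.conj_k n (gg G S) i

theorem gn_n (S : Set ℕ) (P : Submodule ℂ (L2 (Unit × Hg G)))
    (hP : IsClosed (P : Set (L2 (Unit × Hg G)))) (hloc : Loc (DIg G {0}) P) (n : ℤ) :
    ((mach G S P hP hloc).gn n).n = 0 := Wr.conj_n n (gg G S)

theorem gg_k_mem {S : Set ℕ} {n : ℕ} (h : n ∈ S) : (gg G S).k (0 - (n : ℤ)) = 1 := by
  classical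
  show ((1 : G), if ∃ m : ℕ, m ∉ S ∧ (0 - (n : ℤ)) = -(m : ℤ) then pp else 1) = 1
  rw [if_neg]
  · rfl
  · rintro ⟨m, hm, he⟩
    have : m = n := by omega
    rw [this] at hm
    exact hm h

theorem gg_k_not_mem {S : Set ℕ} {n : ℕ} (h : n ∉ S) : (gg G S).k (0 - (n : ℤ)) = (1, pp) := by
  classical
  show ((1 : G), if ∃ m : ℕ, m ∉ S ∧ (0 - (n : ℤ)) = -(m : ℤ) then pp else 1) = (1, pp)
  rw [if_pos]
  exact ⟨n, h, by ring⟩

theorem mach_good (S : Set ℕ) (P : Submodule ℂ (L2 (Unit × Hg G)))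
    (hP : IsClosed (P : Set (L2 (Unit × Hg G)))) (hloc : Loc (DIg G {0}) P) (n : ℕ)
    (hn : n ∈ S) : (mach G S P hP hloc).gn n * (mach G S P hP hloc).h =
      (mach G S P hP hloc).h * (mach G S P hP hloc).gn n := by
  apply Wr.ext
  · funext i
    rw [Wr.mul_k, Wr.mul_k, gn_k, gn_n, gn_k]
    show (gg G S).k (i - n) * (hh G).k (i - 0) = (hh G).k i * (gg G S).k (i - 0 - n)
    rw [sub_zero]
    by_cases hi : i = 0
    · rw [hi, gg_k_mem hn, one_mul, mul_one]
    · have : (hh G).k i = 1 := by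
        show ((1 : G), if i = 0 then (Wr.t : Wr (Multiplicative ℤ)) else 1) = 1
        rw [if_neg hi]
        rfl
      rw [this, one_mul, mul_one]
  · rw [Wr.mul_n, Wr.mul_n, add_comm]

theorem mach_bad (S : Set ℕ) (P : Submodule ℂ (L2 (Unit × Hg G)))
    (hP : IsClosed (P : Set (L2 (Unit × Hg G)))) (hloc : Loc (DIg G {0}) P) (n : ℕ)
    (hn : n ∉ S) : (mach G S P hP hloc).gn n * (mach G S P hP hloc).h ≠
      (mach G S P hP hloc).h * (mach G S P hP hloc).gn n := by
  intro h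
  have h1 := congrArg (fun a : Hg G => (a.k 0).2) h
  simp only [Wr.mul_k] at h1
  rw [gn_k, gn_n, gn_k] at h1
  change ((gg G S).k (0 - n) * (hh G).k (0 - 0)).2 = ((hh G).k 0 * (gg G S).k (0 - 0 - n)).2 at h1
  rw [sub_zero, gg_k_not_mem hn] at h1
  change pp * (if (0 : ℤ) = 0 then (Wr.t : Wr (Multiplicative ℤ)) else 1) =
    (if (0 : ℤ) = 0 then (Wr.t : Wr (Multiplicative ℤ)) else 1) * pp at h1
  rw [if_pos rfl] at h1
  exact pp_t h1

end Pool.Agent.TH25.AD
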